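import Mathlib

set_option autoImplicit false

/-!
# A quasinilpotent weighted shift and its projective limit
-/

namespace Pool.Agent.TH155.Neu

open Filter Topology BoundedContinuousFunction

/-- exponent of the weight -/
def ex (n : ℤ) : ℤ := 2 * (n * |n|)

theorem ex_sub (n : ℤ) (k : ℕ) : (k : ℤ) ^ 2 ≤ ex n - ex (n - k) := by
  unfold ex
  have hk : (0 : ℤ) ≤ k := Int.natCast_nonneg k
  rcases abs_cases n with ⟨h1, h1'⟩ | ⟨h1, h1'⟩ <;> rcases abs_cases (n - k) with ⟨h2, h2'⟩ | ⟨h2, h2'⟩ <;>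
    rw [h1, h2] <;> nlinarith [sq_nonneg (2 * n - k)]

/-- the weights -/
noncomputable def wt (n : ℤ) : ℝ := (2 : ℝ) ^ (-(ex n))

theorem wt_pos (n : ℤ) : 0 < wt n := by unfold wt; positivity

theorem wt_ratio (n : ℤ) (k : ℕ) : wt n / wt (n - k) ≤ (2 : ℝ) ^ (-((k : ℤ) ^ 2)) := by
  unfold wt
  rw [← zpow_sub₀ (by norm_num)]
  apply zpow_le_zpow_right₀ (by norm_num)
  have := ex_sub n k
  linarith

theorem wt_ratio_one (n : ℤ) : wt n / wt (n - 1) ≤ 1 := by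
  have h := wt_ratio n 1
  simp only [Nat.cast_one, one_pow] at h
  refine h.trans ?_
  norm_num

variable (𝕂 : Type) [RCLike 𝕂]

/-- the Banach space of bounded sequences indexed by the integers -/
abbrev X := ℤ →ᵇ 𝕂

/-- the weighted shift as a function -/
noncomputable def Jfun (f : X 𝕂) : X 𝕂 :=
  BoundedContinuousFunction.ofNormedAddCommGroupDiscrete
    (fun n => ((wt n / wt (n - 1) : ℝ) : 𝕂) * f (n - 1)) ‖f‖ (by
      intro n
      rw [norm_mul]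
      have h1 : ‖((wt n / wt (n - 1) : ℝ) : 𝕂)‖ ≤ 1 := by
        rw [RCLike.norm_ofReal, abs_of_pos (div_pos (wt_pos _) (wt_pos _))]
        exact wt_ratio_one n
      calc _ ≤ 1 * ‖f‖ := mul_le_mul h1 (f.norm_coe_le_norm _) (norm_nonneg _) zero_le_one
        _ = ‖f‖ := one_mul _)

variable {𝕂}

theorem Jfun_apply (f : X 𝕂) (n : ℤ) :
    Jfun 𝕂 f n = ((wt n / wt (n - 1) : ℝ) : 𝕂) * f (n - 1) := rfl

theorem norm_Jfun_le (f : X 𝕂) : ‖Jfun 𝕂 f‖ ≤ ‖f‖ := by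
  rw [BoundedContinuousFunction.norm_le (norm_nonneg _)]
  intro n
  rw [Jfun_apply, norm_mul]
  have h1 : ‖((wt n / wt (n - 1) : ℝ) : 𝕂)‖ ≤ 1 := by
    rw [RCLike.norm_ofReal, abs_of_pos (div_pos (wt_pos _) (wt_pos _))]
    exact wt_ratio_one n
  calc _ ≤ 1 * ‖f‖ := mul_le_mul h1 (f.norm_coe_le_norm _) (norm_nonneg _) zero_le_one
    _ = ‖f‖ := one_mul _

variable (𝕂)

/-- the weighted shift -/
noncomputable def J : X 𝕂 →L[𝕂] X 𝕂 :=
  LinearMap.mkContinuous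
    { toFun := Jfun 𝕂
      map_add' := by
        intro f g; ext n
        simp only [Jfun_apply, BoundedContinuousFunction.coe_add, Pi.add_apply]; ring
      map_smul' := by
        intro c f; ext n
        simp only [Jfun_apply, BoundedContinuousFunction.coe_smul, RingHom.id_apply, smul_eq_mul]
        ring } 1 (by
    intro f
    rw [one_mul]
    exact norm_Jfun_le f)

variable {𝕂}

theorem J_apply (f : X 𝕂) (n : ℤ) :
    J 𝕂 f n = ((wt n / wt (n - 1) : ℝ) : 𝕂) * f (n - 1) := rfl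

theorem J_pow_apply (k : ℕ) (f : X 𝕂) (n : ℤ) :
    (J 𝕂 ^ k) f n = ((wt n / wt (n - k) : ℝ) : 𝕂) * f (n - k) := by
  induction k generalizing n with
  | zero =>
    simp [div_self (wt_pos n).ne']
  | succ k ih =>
    rw [pow_succ', ContinuousLinearMap.mul_apply, J_apply, ih, ← mul_assoc, ← RCLike.ofReal_mul]
    have e : n - 1 - (k : ℤ) = n - ((k + 1 : ℕ) : ℤ) := by push_cast; ring
    rw [e]
    congr 2
    field_simp [(wt_pos (n - 1)).ne']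

theorem norm_J_le (f : X 𝕂) : ‖J 𝕂 f‖ ≤ ‖f‖ := norm_Jfun_le f

theorem norm_J_pow_le (k : ℕ) : ‖J 𝕂 ^ k‖ ≤ (2 : ℝ) ^ (-((k : ℤ) ^ 2)) := by
  refine ContinuousLinearMap.opNorm_le_bound _ (by positivity) (fun f => ?_)
  rw [BoundedContinuousFunction.norm_le (by positivity)]
  intro n
  rw [J_pow_apply, norm_mul, RCLike.norm_ofReal, abs_of_pos (div_pos (wt_pos _) (wt_pos _))]
  exact mul_le_mul (wt_ratio n k) (f.norm_coe_le_norm _) (norm_nonneg _) (by positivity)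

theorem exists_pow_small (c : ℝ) (hc : 0 ≤ c) :
    ∃ k : ℕ, 1 ≤ k ∧ c ^ k * (2 : ℝ) ^ (-((k : ℤ) ^ 2)) < 1 := by
  obtain ⟨k, hk⟩ := pow_unbounded_of_one_lt (c + 1) (one_lt_two : (1 : ℝ) < 2)
  refine ⟨k + 1, by omega, ?_⟩
  have h1 : (2 : ℝ) ^ (-(((k + 1 : ℕ) : ℤ) ^ 2)) = (((2 : ℝ) ^ (k + 1))⁻¹) ^ (k + 1) := by
    rw [zpow_neg, inv_pow, ← pow_mul]
    congr 1
    rw [← zpow_natCast]
    congr 1
    push_cast
    ring
  rw [h1, ← mul_pow]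
  apply pow_lt_one₀ (by positivity) _ (by omega)
  rw [← div_eq_mul_inv, div_lt_one (by positivity)]
  calc c < c + 1 := lt_add_one c
    _ < 2 ^ k := hk
    _ ≤ 2 ^ (k + 1) := pow_le_pow_right₀ one_le_two (by omega)

/-- the weighted shift is quasinilpotent -/
theorem isUnit_one_sub (c : 𝕂) : IsUnit (1 - c • J 𝕂) := by
  obtain ⟨k, hk1, hk⟩ := exists_pow_small ‖c‖ (norm_nonneg c)
  have hsp : ∀ j : ℕ, (c • J 𝕂) ^ j = c ^ j • J 𝕂 ^ j := by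
    intro j
    induction j with
    | zero => simp
    | succ j ih =>
      ext1 f
      rw [pow_succ', pow_succ' (J 𝕂), ih]
      show c • J 𝕂 (c ^ j • (J 𝕂 ^ j) f) = c ^ (j + 1) • J 𝕂 ((J 𝕂 ^ j) f)
      rw [map_smul, smul_smul, ← pow_succ']
  have hn : ‖(c • J 𝕂) ^ k‖ < 1 := by
    rw [hsp, norm_smul, norm_pow]
    exact (mul_le_mul_of_nonneg_left (norm_J_pow_le k) (by positivity)).trans_lt hk
  have hu : IsUnit (1 - (c • J 𝕂) ^ k) := by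
    exact @isUnit_one_sub_of_norm_lt_one (X 𝕂 →L[𝕂] X 𝕂) _ _ _ hn
  have e : 1 - (c • J 𝕂) ^ k = (1 - c • J 𝕂) * ∑ i ∈ Finset.range k, (c • J 𝕂) ^ i :=
    (mul_neg_geom_sum _ _).symm
  have e' : 1 - (c • J 𝕂) ^ k = (∑ i ∈ Finset.range k, (c • J 𝕂) ^ i) * (1 - c • J 𝕂) :=
    (geom_sum_mul_neg _ _).symm
  have hcomm : Commute (1 - c • J 𝕂) (∑ i ∈ Finset.range k, (c • J 𝕂) ^ i) := by
    show _ * _ = _ * _
    rw [← e, ← e']
  rw [e, hcomm.isUnit_mul_iff] at hu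
  exact hu.1

variable (𝕂)

/-- the projective limit -/
def E : Submodule 𝕂 (ℕ → X 𝕂) where
  carrier := {y | ∀ m, y m = J 𝕂 (y (m + 1))}
  add_mem' := by
    intro a b ha hb m
    simp only [Pi.add_apply, map_add]
    rw [← ha m, ← hb m]
  zero_mem' := by intro m; simp
  smul_mem' := by
    intro c a ha m
    simp only [Pi.smul_apply, map_smul]
    rw [← ha m]

theorem isClosed_E : IsClosed (E 𝕂 : Set (ℕ → X 𝕂)) := by
  have : (E 𝕂 : Set (ℕ → X 𝕂)) = ⋂ m, {y | y m = J 𝕂 (y (m + 1))} := by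
    ext y
    simp only [Set.mem_iInter]
    rfl
  rw [this]
  refine isClosed_iInter (fun m => isClosed_eq (continuous_apply m) ?_)
  exact (J 𝕂).continuous.comp (continuous_apply (m + 1))

/-- the seminorms -/
noncomputable def semi (m : ℕ) : Seminorm 𝕂 (E 𝕂) :=
  (normSeminorm 𝕂 (X 𝕂)).comp ((LinearMap.proj m).comp (E 𝕂).subtype)

theorem semi_apply (m : ℕ) (y : E 𝕂) : semi 𝕂 m y = ‖y.1 m‖ := rfl

theorem semi_mono : Monotone (semi 𝕂) := by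
  refine monotone_nat_of_le_succ (fun m => ?_)
  intro y
  rw [semi_apply, semi_apply, y.2 m]
  exact norm_J_le _

theorem withSeminorms : WithSeminorms (semi 𝕂) := by
  rw [SeminormFamily.withSeminorms_iff_nhds_eq_iInf]
  rw [nhds_subtype_eq_comap, nhds_pi, Filter.pi, Filter.comap_iInf]
  congr 1
  ext1 m
  have h0 : 𝓝 ((0 : E 𝕂).1 m) = Filter.comap norm (𝓝 (0 : ℝ)) := by
    rw [comap_norm_nhds_zero]; rfl
  rw [Filter.comap_comap, h0, Filter.comap_comap]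
  rfl

/-- the backward shift -/
noncomputable def U : E 𝕂 →L[𝕂] E 𝕂 where
  toFun y := ⟨fun m => y.1 (m + 1), fun m => y.2 (m + 1)⟩
  map_add' := by intro a b; rfl
  map_smul' := by intro c a; rfl
  cont := by
    refine Continuous.subtype_mk ?_ _
    exact continuous_pi (fun m => (continuous_apply (m + 1)).comp continuous_subtype_val)

variable {𝕂}

theorem U_apply (y : E 𝕂) (m : ℕ) : (U 𝕂 y).1 m = y.1 (m + 1) := rfl

theorem U_iter (k : ℕ) (y : E 𝕂) (m : ℕ) : ((U 𝕂)^[k] y).1 m = y.1 (m + k) := by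
  induction k generalizing m with
  | zero => rfl
  | succ k ih =>
    rw [Function.iterate_succ_apply', U_apply, ih]
    have : m + 1 + k = m + (k + 1) := by omega
    rw [this]

theorem bijective (c : 𝕂) : Function.Bijective (fun x : E 𝕂 => x - c • U 𝕂 x) := by
  by_cases hc : c = 0
  · subst hc
    simp only [zero_smul, sub_zero]
    exact Function.bijective_id
  obtain ⟨B, hB⟩ := isUnit_one_sub (c⁻¹ : 𝕂)
  have hB1 : ∀ x : X 𝕂, (B⁻¹ : (X 𝕂 →L[𝕂] X 𝕂)ˣ).1 (x - c⁻¹ • J 𝕂 x) = x := by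
    intro x
    have h : (B⁻¹ : (X 𝕂 →L[𝕂] X 𝕂)ˣ).1 * B.1 = 1 := B.inv_mul
    have := congrArg (fun T : X 𝕂 →L[𝕂] X 𝕂 => T x) h
    simpa [hB] using this
  have hB2 : ∀ x : X 𝕂, (B⁻¹ : (X 𝕂 →L[𝕂] X 𝕂)ˣ).1 x - c⁻¹ • J 𝕂 ((B⁻¹ : (X 𝕂 →L[𝕂] X 𝕂)ˣ).1 x) = x := by
    intro x
    have h : B.1 * (B⁻¹ : (X 𝕂 →L[𝕂] X 𝕂)ˣ).1 = 1 := B.mul_inv
    have := congrArg (fun T : X 𝕂 →L[𝕂] X 𝕂 => T x) h
    simpa [hB] using this
  have hcomm : ∀ x : X 𝕂, (B⁻¹ : (X 𝕂 →L[𝕂] X 𝕂)ˣ).1 (J 𝕂 x) = J 𝕂 ((B⁻¹ : (X 𝕂 →L[𝕂] X 𝕂)ˣ).1 x) := by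
    intro x
    have h1 := hB2 x
    have h2 := hB1 (J 𝕂 ((B⁻¹ : (X 𝕂 →L[𝕂] X 𝕂)ˣ).1 x))
    have h3 : J 𝕂 ((B⁻¹ : (X 𝕂 →L[𝕂] X 𝕂)ˣ).1 x) - c⁻¹ • J 𝕂 (J 𝕂 ((B⁻¹ : (X 𝕂 →L[𝕂] X 𝕂)ˣ).1 x)) = J 𝕂 x := by
      rw [← map_smul, ← map_sub, h1]
    rw [h3] at h2
    exact h2
  set S : X 𝕂 →L[𝕂] X 𝕂 := (B⁻¹ : (X 𝕂 →L[𝕂] X 𝕂)ˣ).1 with hS
  constructor
  · intro x y hxy
    have h0 : ∀ z : E 𝕂, z - c • U 𝕂 z = 0 → z = 0 := by
      intro z hz
      have hz' : ∀ m, z.1 m = c • z.1 (m + 1) := by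
        intro m
        have : z.1 m - c • z.1 (m + 1) = 0 := congrArg (fun w : E 𝕂 => w.1 m) hz
        exact sub_eq_zero.1 this
      have h1 : ∀ m, z.1 (m + 1) = 0 := by
        intro m
        have h2 : z.1 (m + 1) - c⁻¹ • J 𝕂 (z.1 (m + 1)) = 0 := by
          rw [← z.2 m, hz' m, smul_smul, inv_mul_cancel₀ hc, one_smul, sub_self]
        rw [← hB1 (z.1 (m + 1)), h2, map_zero]
      ext1
      funext m
      rw [z.2 m, h1 m, map_zero]
      rfl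
    have h1 : (x - y) - c • U 𝕂 (x - y) = 0 := by
      simp only at hxy
      rw [map_sub, smul_sub, sub_sub_sub_comm, hxy, sub_self]
    exact sub_eq_zero.1 (h0 _ h1)
  · intro g
    -- `f m = -c⁻¹ S (J (g m))`
    let A : X 𝕂 → X 𝕂 := fun x => -(c⁻¹ • S (J 𝕂 x))
    have hAJ : ∀ x, A (J 𝕂 x) = J 𝕂 (A x) := by
      intro x
      simp only [A, map_neg, map_smul, hcomm]
    refine ⟨⟨fun m => A (g.1 m), fun m => ?_⟩, ?_⟩
    · show A (g.1 m) = J 𝕂 (A (g.1 (m + 1)))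
      rw [← hAJ, ← g.2 m]
    · ext1
      funext m
      show A (g.1 m) - c • A (g.1 (m + 1)) = g.1 m
      have h1 : A (g.1 m) = -(c⁻¹ • J 𝕂 (S (g.1 m))) := by
        simp only [A, hcomm]
      have h2 : c • A (g.1 (m + 1)) = -S (g.1 m) := by
        simp only [A]
        rw [← g.2 m, smul_neg, smul_smul, mul_inv_cancel₀ hc, one_smul]
      rw [h1, h2, sub_neg_eq_add, neg_add_eq_sub]
      exact hB2 (g.1 m)

variable (𝕂)

/-- the vector of the projective limit for which the series diverges -/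
noncomputable def vec : E 𝕂 :=
  ⟨fun m => BoundedContinuousFunction.ofNormedAddCommGroupDiscrete
    (fun n => if n = -(m : ℤ) then ((wt n : ℝ) : 𝕂) else 0) (wt (-(m : ℤ))) (by
      intro n
      by_cases h : n = -(m : ℤ)
      · subst h
        simp only [if_true]
        rw [RCLike.norm_ofReal, abs_of_pos (wt_pos _)]
      · simp only [h, if_false, norm_zero]
        exact (wt_pos _).le), by
    intro m
    ext n
    rw [J_apply]
    show (if n = -(m : ℤ) then ((wt n : ℝ) : 𝕂) else 0) = ((wt n / wt (n - 1) : ℝ) : 𝕂) *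
      (if n - 1 = -((m + 1 : ℕ) : ℤ) then ((wt (n - 1) : ℝ) : 𝕂) else 0)
    by_cases h : n = -(m : ℤ)
    · have h' : n - 1 = -((m + 1 : ℕ) : ℤ) := by push_cast; omega
      rw [if_pos h, if_pos h', ← RCLike.ofReal_mul, div_mul_cancel₀ _ (wt_pos _).ne']
    · have h' : ¬ (n - 1 = -((m + 1 : ℕ) : ℤ)) := by push_cast; omega
      rw [if_neg h, if_neg h', mul_zero]⟩

variable {𝕂}

theorem norm_vec (m : ℕ) : (2 : ℝ) ^ ((m : ℤ) ^ 2) ≤ ‖(vec 𝕂).1 m‖ := by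
  have h1 : ‖(vec 𝕂).1 m (-(m : ℤ))‖ ≤ ‖(vec 𝕂).1 m‖ := BoundedContinuousFunction.norm_coe_le_norm _ _
  have h2 : (vec 𝕂).1 m (-(m : ℤ)) = ((wt (-(m : ℤ)) : ℝ) : 𝕂) := by
    show (if -(m : ℤ) = -(m : ℤ) then ((wt (-(m : ℤ)) : ℝ) : 𝕂) else 0) = _
    rw [if_pos rfl]
  rw [h2, RCLike.norm_ofReal, abs_of_pos (wt_pos _)] at h1
  refine le_trans ?_ h1
  unfold wt
  apply zpow_le_zpow_right₀ (by norm_num)
  unfold ex
  rw [abs_neg, abs_of_nonneg (Int.natCast_nonneg m)]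
  nlinarith [sq_nonneg (m : ℤ)]

theorem diverges (c : 𝕂) (hc : c ≠ 0) (s : E 𝕂) :
    ¬ Tendsto (fun N => ∑ k ∈ Finset.range N, c ^ k • (U 𝕂)^[k] (vec 𝕂)) atTop (𝓝 s) := by
  intro h
  have h1 : Tendsto (fun N => ∑ k ∈ Finset.range (N + 1), c ^ k • (U 𝕂)^[k] (vec 𝕂)) atTop (𝓝 s) :=
    h.comp (tendsto_add_atTop_nat 1)
  have h2 := h1.sub h
  simp only [Finset.sum_range_succ, add_sub_cancel_left, sub_self] at h2
  have h3 : Tendsto (fun N => (c ^ N • (U 𝕂)^[N] (vec 𝕂)).1 0) atTop (𝓝 ((0 : E 𝕂).1 0)) :=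
    ((continuous_apply 0).comp continuous_subtype_val).continuousAt.tendsto.comp h2
  have h4 : Tendsto (fun N => ‖(c ^ N • (U 𝕂)^[N] (vec 𝕂)).1 0‖) atTop (𝓝 0) := by
    have := h3.norm
    simpa using this
  have h5 : ∀ᶠ N in atTop, ‖(c ^ N • (U 𝕂)^[N] (vec 𝕂)).1 0‖ < 1 :=
    h4.eventually (gt_mem_nhds zero_lt_one)
  obtain ⟨k, hk⟩ := pow_unbounded_of_one_lt (‖c‖⁻¹) (one_lt_two : (1 : ℝ) < 2)
  obtain ⟨N, hN1, hN2⟩ := (h5.and (eventually_ge_atTop k)).exists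
  have h6 : ‖(c ^ N • (U 𝕂)^[N] (vec 𝕂)).1 0‖ = ‖c‖ ^ N * ‖(vec 𝕂).1 N‖ := by
    show ‖c ^ N • ((U 𝕂)^[N] (vec 𝕂)).1 0‖ = _
    rw [U_iter, norm_smul, norm_pow, zero_add]
  rw [h6] at hN1
  have h7 : (1 : ℝ) ≤ ‖c‖ ^ N * ‖(vec 𝕂).1 N‖ := by
    calc (1 : ℝ) ≤ (‖c‖ * 2 ^ N) ^ N := by
          apply one_le_pow₀
          have h8 : ‖c‖⁻¹ ≤ 2 ^ N := hk.le.trans (pow_le_pow_right₀ one_le_two hN2)
          have h9 : 0 < ‖c‖ := norm_pos_iff.2 hc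
          calc (1 : ℝ) = ‖c‖ * ‖c‖⁻¹ := (mul_inv_cancel₀ h9.ne').symm
            _ ≤ ‖c‖ * 2 ^ N := by gcongr
      _ = ‖c‖ ^ N * (2 : ℝ) ^ ((N : ℤ) ^ 2) := by
          rw [mul_pow, ← pow_mul]
          congr 1
          rw [← zpow_natCast]
          congr 1
          push_cast
          ring
      _ ≤ ‖c‖ ^ N * ‖(vec 𝕂).1 N‖ := by
          gcongr
          exact norm_vec N
  linarith

theorem complete (u : ℕ → E 𝕂)
    (hu : ∀ V ∈ 𝓝 (0 : E 𝕂), ∃ N, ∀ m ≥ N, ∀ n ≥ N, u m - u n ∈ V) :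
    ∃ x, Tendsto u atTop (𝓝 x) := by
  have : CompleteSpace (E 𝕂) := (isClosed_E 𝕂).completeSpace_coe
  have : IsUniformAddGroup (E 𝕂) := (E 𝕂).toAddSubgroup.isUniformAddGroup
  have hc : CauchySeq u := by
    rw [cauchySeq_iff_tendsto, uniformity_eq_comap_nhds_zero (E 𝕂), Filter.tendsto_comap_iff]
    rw [Filter.tendsto_def]
    intro V hV
    obtain ⟨N, hN⟩ := hu V hV
    rw [← prod_atTop_atTop_eq]
    filter_upwards [Filter.prod_mem_prod (Ici_mem_atTop N) (Ici_mem_atTop N)] with x hx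
    exact hN _ hx.2 _ hx.1
  exact cauchySeq_tendsto_of_complete hc

end Pool.Agent.TH155.Neu
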